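import Pool.Agent.H736.LD.KH2

/-!
# MP_3844f5: KH1, the Kunen-Haydon recursion (helper736)
-/

set_option autoImplicit false

open Set MeasureTheory
open scoped ENNReal
open Pool.Agent.W6h79.LD Pool.Agent.H624.LD

namespace Pool.Agent.H736.LD

universe u

/-- there are at most continuum many measurable sets in `{0,1}^A`, `#A ≤ 𝔠` -/
theorem card_meas (A : Type u) (hA : Cardinal.mk A ≤ Cardinal.continuum) :
    Cardinal.mk {Z : Set (A → Bool) | MeasurableSet Z} ≤ Cardinal.continuum := by
  have h1 : (MeasurableSpace.pi : MeasurableSpace (A → Bool)) =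
      MeasurableSpace.generateFrom (range fun a : A => {x : A → Bool | x a = true}) := by
    apply le_antisymm
    · refine iSup_le fun a => ?_
      rw [← measurable_iff_comap_le]
      apply @measurable_to_bool _ (MeasurableSpace.generateFrom _)
      exact MeasurableSpace.measurableSet_generateFrom ⟨a, rfl⟩
    · apply MeasurableSpace.generateFrom_le
      rintro _ ⟨a, rfl⟩
      exact (measurable_pi_apply a : Measurable fun x : A → Bool => x a)
        (measurableSet_singleton true)
  have h2 : Cardinal.mk (range fun a : A => {x : A → Bool | x a = true}) ≤ Cardinal.continuum :=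
    Cardinal.mk_range_le.trans hA
  have h3 := MeasurableSpace.cardinal_measurableSet_le_continuum h2
  rw [← h1] at h3
  exact h3

/-- an enumeration of the closed sets which depend on countably many coordinates -/
theorem exists_enum (A : Type u) (hA : Cardinal.mk A = Cardinal.continuum) :
    ∃ e : A → Set (A → Bool), (∀ a, IsClosed (e a)) ∧
      ∀ (Z : Set (A → Bool)) (I : Set A), IsClosed Z → I.Countable → Dep I Z → ∃ a, e a = Z := by
  let T : Set (Set (A → Bool)) := {Z | IsClosed Z ∧ ∃ I : Set A, I.Countable ∧ Dep I Z}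
  have h0 : ∅ ∈ T := ⟨isClosed_empty, ∅, countable_empty, fun x y _ => by simp⟩
  have : Nonempty T := ⟨⟨∅, h0⟩⟩
  have h1 : T ⊆ {Z : Set (A → Bool) | MeasurableSet Z} := by
    rintro Z ⟨hZ, I, hI, hd⟩
    exact closed_meas hI hZ hd
  have h2 : Cardinal.mk T ≤ Cardinal.mk A := by
    rw [hA]
    exact (Cardinal.mk_le_mk_of_subset h1).trans (card_meas A hA.le)
  obtain ⟨f⟩ := h2
  refine ⟨fun a => (Function.invFun f a : T).1, fun a => (Function.invFun f a : T).2.1,
    fun Z I hZ hI hd => ?_⟩
  refine ⟨f ⟨Z, hZ, I, hI, hd⟩, ?_⟩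
  change (Function.invFun f (f ⟨Z, hZ, I, hI, hd⟩) : T).1 = Z
  rw [Function.leftInverse_invFun f.injective]

/-- the condition for `H a` -/
def Cnd {A : Type u} [LinearOrder A] [WellFoundedLT A] (e : A → Set (A → Bool)) (a : A)
    (H' : A → Set (A → Bool)) (Z : Set (A → Bool)) : Prop :=
  IsClosed Z ∧ Dep (Iio a) Z ∧ (2⁻¹ : ℝ≥0∞) ≤ coins A {x | tr a (Phi H' x) ∈ Z} ∧
    ∀ ξ < a, Dep (Iio a) (e ξ) → coins A {x | tr a (Phi H' x) ∈ e ξ} = 0 → Z ∩ e ξ = ∅

theorem exists_Cnd {A : Type u} [LinearOrder A] [WellFoundedLT A] (e : A → Set (A → Bool))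
    (he : ∀ a, IsClosed (e a)) (a : A) (ha : (Iio a).Countable) (H' : A → Set (A → Bool))
    (hH : ∀ b < a, MeasurableSet (H' b)) : ∃ Z, Cnd e a H' Z := by
  classical
  have hc : Countable (Iio a) := ha.to_subtype
  let f : (A → Bool) → (Iio a → Bool) := fun x => rs (Iio a) (tr a (Phi H' x))
  have hf : Measurable f := (rs_meas _).comp (tr_Phi_meas H' a hH)
  let σ : Measure (Iio a → Bool) := (coins A).map f
  have : IsProbabilityMeasure σ := Measure.isProbabilityMeasure_map hf.aemeasurable
  let J : Set A := {ξ | ξ < a ∧ Dep (Iio a) (e ξ) ∧ coins A {x | tr a (Phi H' x) ∈ e ξ} = 0}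
  have hJ : J.Countable := ha.mono fun ξ hξ => hξ.1
  let N : Set (Iio a → Bool) := ⋃ ξ ∈ J, rs (Iio a) '' e ξ
  have hNm : MeasurableSet N :=
    MeasurableSet.biUnion hJ fun ξ _ => (closed_image (he ξ)).measurableSet
  have hN0 : σ N = 0 := by
    rw [measure_biUnion_null_iff hJ]
    intro ξ hξ
    rw [Measure.map_apply hf (closed_image (he ξ)).measurableSet]
    have h1 : f ⁻¹' (rs (Iio a) '' e ξ) = {x | tr a (Phi H' x) ∈ e ξ} := by
      ext x
      exact rs_mem hξ.2.1 _
    rw [h1]
    exact hξ.2.2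
  have hNc : σ Nᶜ = 1 := by
    rw [measure_compl hNm (measure_ne_top _ _), hN0, measure_univ, tsub_zero]
  obtain ⟨K, hKN, hKc, hK⟩ := hNm.compl.exists_lt_isClosed_of_ne_top (μ := σ)
    (measure_ne_top _ _) (r := 2⁻¹) (by rw [hNc]; exact ENNReal.inv_lt_one.2 (by norm_num))
  refine ⟨rs (Iio a) ⁻¹' K, hKc.preimage (rs_cont _), ?_, ?_, ?_⟩
  · intro x y hxy
    have : rs (Iio a) x = rs (Iio a) y := funext fun i => hxy i i.2
    rw [mem_preimage, mem_preimage, this]
  · have h2 : σ K = coins A {x | tr a (Phi H' x) ∈ rs (Iio a) ⁻¹' K} := by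
      rw [Measure.map_apply hf hKc.measurableSet]
      rfl
    rw [← h2]
    exact hK.le
  · intro ξ hξ hd h0
    rw [eq_empty_iff_forall_notMem]
    rintro x ⟨hx1, hx2⟩
    apply hKN hx1
    exact mem_biUnion (show ξ ∈ J from ⟨hξ, hd, h0⟩) ⟨x, hx2, rfl⟩

/-- `tr a (Phi H x)` depends on the `H b`, `b < a` only -/
theorem Phi_congr {A : Type u} [LinearOrder A] [WellFoundedLT A] {H H' : A → Set (A → Bool)}
    (a : A) (h : ∀ b ≤ a, H b = H' b) (x : A → Bool) : Phi H x a = Phi H' x a := by
  induction a using WellFoundedLT.induction with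
  | ind a ih =>
    have h1 : tr a (Phi H x) = tr a (Phi H' x) := by
      funext b
      unfold tr
      by_cases hb : b < a
      · rw [if_pos hb, if_pos hb]
        exact ih b hb fun c hc => h c (hc.trans hb.le)
      · rw [if_neg hb, if_neg hb]
    rw [Bool.eq_iff_iff, Phi_eq, Phi_eq, h1, h a le_rfl]

theorem tr_congr {A : Type u} [LinearOrder A] [WellFoundedLT A] {H H' : A → Set (A → Bool)}
    (a : A) (h : ∀ b < a, H b = H' b) (x : A → Bool) : tr a (Phi H x) = tr a (Phi H' x) := by
  funext b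
  unfold tr
  by_cases hb : b < a
  · rw [if_pos hb, if_pos hb]
    exact Phi_congr b (fun c hc => h c (hc.trans_lt hb)) x
  · rw [if_neg hb, if_neg hb]

open Classical in
/-- the recursion -/
noncomputable def HH {A : Type u} [LinearOrder A] [WellFoundedLT A] (e : A → Set (A → Bool)) :
    A → Set (A → Bool) :=
  wellFounded_lt.fix (C := fun _ : A => Set (A → Bool)) fun a ih =>
    Classical.epsilon (Cnd e a fun b => if h : b < a then ih b h else ∅)

theorem HH_eq {A : Type u} [LinearOrder A] [WellFoundedLT A] (e : A → Set (A → Bool)) (a : A) :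
    ∃ H' : A → Set (A → Bool), (∀ b < a, HH e b = H' b) ∧
      HH e a = Classical.epsilon (Cnd e a H') := by
  classical
  refine ⟨fun b => if b < a then HH e b else ∅, fun b hb => ?_, ?_⟩
  · change HH e b = if b < a then HH e b else ∅
    rw [if_pos hb]
  · have h : HH e a = Classical.epsilon (Cnd e a fun b => if _ : b < a then HH e b else ∅) := by
      unfold HH
      rw [WellFounded.fix_eq]
    rw [h]
    rfl

theorem HH_spec {A : Type u} [LinearOrder A] [WellFoundedLT A] (e : A → Set (A → Bool))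
    (he : ∀ a, IsClosed (e a)) (hct : ∀ a : A, (Iio a).Countable) (a : A) :
    Cnd e a (HH e) (HH e a) := by
  induction a using WellFoundedLT.induction with
  | ind a ih =>
    obtain ⟨H', h1, h2⟩ := HH_eq e a
    have h3 : ∀ b < a, MeasurableSet (H' b) := by
      intro b hb
      rw [← h1 b hb]
      exact closed_meas (hct b) (ih b hb).1 (ih b hb).2.1
    have h4 := Classical.epsilon_spec (exists_Cnd e he a (hct a) H' h3)
    rw [← h2] at h4
    have h5 : ∀ x, tr a (Phi (HH e) x) = tr a (Phi H' x) := fun x => tr_congr a h1 x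
    refine ⟨h4.1, h4.2.1, ?_, ?_⟩
    · simp only [h5]
      exact h4.2.2.1
    · intro ξ hξ hd h0
      simp only [h5] at h0
      exact h4.2.2.2 ξ hξ hd h0

/-- KH1 -/
theorem sKH1 : S_KH1.{u} := by
  intro hCH
  let A : Type u := (Cardinal.aleph.{u} 1).ord.ToType
  have hA : Cardinal.mk A = Cardinal.aleph 1 := Cardinal.mk_ord_toType _
  have hct : ∀ a : A, (Iio a).Countable := by
    intro a
    rw [← Cardinal.le_aleph0_iff_set_countable, ← Order.lt_succ_iff, Cardinal.succ_aleph0]
    have := Cardinal.mk_Iio_lt a (by simp [A])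
    rwa [hA] at this
  obtain ⟨e, he, heS⟩ := exists_enum A (hA.trans hCH)
  refine ⟨A, inferInstance, inferInstance, HH e, ?_⟩
  have hs := HH_spec e he hct
  refine ⟨hA, hct, fun a => (hs a).1, fun a => (hs a).2.1, fun a => ?_, ?_⟩
  · have h1 := (hs a).2.2.1
    simp only [tr_mem (hs a).2.1] at h1
    exact h1
  · intro Z I hZ hI hd h0
    obtain ⟨ξ, rfl⟩ := heS Z I hZ hI hd
    have h2 : (insert ξ I).Countable := hI.insert ξ
    obtain ⟨a₀, ha₀⟩ : ∃ a₀ : A, a₀ ∉ ⋃ i ∈ insert ξ I, Iic i := by
      by_contra hcon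
      push Not at hcon
      have h3 : (univ : Set A).Countable := by
        refine (h2.biUnion fun i _ => (?_ : (Iic i).Countable)).mono fun a _ => hcon a
        rw [← Iio_insert]
        exact (hct i).insert i
      have h4 := Cardinal.le_aleph0_iff_set_countable.2 h3
      rw [Cardinal.mk_univ, hA] at h4
      exact absurd h4 (not_le.2 Cardinal.aleph0_lt_aleph_one)
    have h5 : ∀ i ∈ insert ξ I, i < a₀ := by
      intro i hi
      by_contra h
      exact ha₀ (mem_biUnion hi (not_lt.1 h))
    refine ⟨a₀, fun a ha => ?_⟩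
    have h6 : Dep (Iio a) (e ξ) := fun x y hxy =>
      hd x y fun i hi => hxy i ((h5 i (mem_insert_of_mem ξ hi)).trans_le ha)
    refine (hs a).2.2.2 ξ ((h5 ξ (mem_insert ξ I)).trans_le ha) h6 ?_
    simp only [tr_mem h6]
    exact h0

end Pool.Agent.H736.LD
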