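import Pool.Agent.H736.LD.KH2

/-!
# MP_3844f5: KH5, measures that live on countably many coordinates (helper736)
-/

set_option autoImplicit false

open Set MeasureTheory
open scoped ENNReal symmDiff
open Pool.Agent.W6h79.LD Pool.Agent.H624.LD

namespace Pool.Agent.H736.LD

universe u

variable {A : Type u} [LinearOrder A] {K : Set (A → Bool)}

/-- the coordinates below `a` -/
def qm (a : A) (x : K) : Iio a → Bool := rs (Iio a) x.1

theorem qm_meas (a : A) : Measurable (qm (K := K) a) := (rs_meas _).comp measurable_subtype_coe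

open Classical in
/-- extension by `false` -/
noncomputable def ex (a : A) (y : Iio a → Bool) : A → Bool :=
  fun b => if h : b < a then y ⟨b, h⟩ else false

theorem ex_meas (a : A) : Measurable (ex a) := by
  rw [measurable_pi_iff]
  intro b
  unfold ex
  by_cases hb : b < a
  · simp only [dif_pos hb]
    exact measurable_pi_apply _
  · simp only [dif_neg hb]
    exact measurable_const

theorem pi_eq (A : Type u) : (MeasurableSpace.pi : MeasurableSpace (A → Bool)) =
    MeasurableSpace.generateFrom (range fun a : A => {x : A → Bool | x a = true}) := by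
  apply le_antisymm
  · refine iSup_le fun a => ?_
    rw [← measurable_iff_comap_le]
    apply @measurable_to_bool _ (MeasurableSpace.generateFrom _)
    exact MeasurableSpace.measurableSet_generateFrom ⟨a, rfl⟩
  · apply MeasurableSpace.generateFrom_le
    rintro _ ⟨a, rfl⟩
    exact (measurable_pi_apply a : Measurable fun x : A → Bool => x a)
      (measurableSet_singleton true)

/-- the measurable set `B` agrees almost everywhere with a set depending on the coordinates below
`a₀` -/
theorem ae_ex (ν : Measure K) (a₀ : A)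
    (h0 : ∀ a, a₀ ≤ a → ν {x | (x : A → Bool) a = true} = 0) (B : Set (A → Bool))
    (hB : MeasurableSet B) :
    ((Subtype.val ⁻¹' B : Set K) : Set K) =ᵐ[ν] (fun x : K => ex a₀ (qm a₀ x)) ⁻¹' B := by
  rw [pi_eq] at hB
  refine MeasurableSpace.generateFrom_induction
    (range fun a : A => {x : A → Bool | x a = true})
    (fun B _ => ((Subtype.val ⁻¹' B : Set K) : Set K) =ᵐ[ν]
      (fun x : K => ex a₀ (qm a₀ x)) ⁻¹' B) ?_ ?_ ?_ ?_ B hB
  · rintro _ ⟨a, rfl⟩ _
    by_cases ha : a < a₀
    · apply Filter.Eventually.of_forall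
      intro x
      apply propext
      change x.1 a = true ↔ ex a₀ (qm a₀ x) a = true
      unfold ex
      rw [dif_pos ha]
      rfl
    · have h1 := h0 a (not_lt.1 ha)
      rw [measure_eq_zero_iff_ae_notMem] at h1
      filter_upwards [h1] with x hx
      apply propext
      change x.1 a = true ↔ ex a₀ (qm a₀ x) a = true
      unfold ex
      rw [dif_neg ha]
      constructor
      · intro h
        exact absurd h hx
      · intro h
        exact absurd h (by simp)
  · exact Filter.EventuallyEq.rfl
  · intro t _ ht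
    exact ht.compl
  · intro s _ hs
    rw [preimage_iUnion, preimage_iUnion]
    exact Filter.EventuallyEq.countable_iUnion hs

theorem sep (ν : Measure K) [IsProbabilityMeasure ν] (a₀ : A) (hct : (Iio a₀).Countable)
    (h0 : ∀ a, a₀ ≤ a → ν {x | (x : A → Bool) a = true} = 0) : IsSeparable ν := by
  have : Countable (Iio a₀) := hct.to_subtype
  have hq := qm_meas (K := K) a₀
  have : IsProbabilityMeasure (ν.map (qm a₀)) := Measure.isProbabilityMeasure_map hq.aemeasurable
  obtain ⟨𝒜, h𝒜, hd⟩ := exists_countable_measureDense (ν.map (qm a₀))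
  refine ⟨(fun C => qm a₀ ⁻¹' C) '' 𝒜, h𝒜.image _, ?_, ?_⟩
  · rintro _ ⟨C, hC, rfl⟩
    exact hq (hd.measurable C hC)
  · rintro _ ⟨B, hB, rfl⟩ _ ε hε
    obtain ⟨C, hC, hCε⟩ := hd.approx (ex a₀ ⁻¹' B) (ex_meas a₀ hB) (measure_ne_top _ _) ε hε
    refine ⟨_, ⟨C, hC, rfl⟩, ?_⟩
    rw [Measure.map_apply hq ((ex_meas a₀ hB).symmDiff (hd.measurable C hC))] at hCε
    refine lt_of_eq_of_lt ?_ hCε
    apply measure_congr
    have h1 := ae_ex ν a₀ h0 B hB
    rw [preimage_symmDiff]
    exact Filter.EventuallyEq.symmDiff h1 Filter.EventuallyEq.rfl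

/-- a countable algebra which generates the sigma-algebra -/
theorem exists_alg (a : A) (hct : (Iio a).Countable) :
    ∃ c : ℕ → Set (Iio a → Bool), (∀ n, MeasurableSet (c n)) ∧
      ∀ μ μ' : Measure (Iio a → Bool), IsProbabilityMeasure μ → IsProbabilityMeasure μ' →
        (∀ n, (μ (c n)).toReal = (μ' (c n)).toReal) → μ = μ' := by
  have : Countable (Iio a) := hct.to_subtype
  have h1 := MeasurableSpace.countable_countableGeneratingSet (α := Iio a → Bool)
  have h2 := MeasurableSpace.generateFrom_countableGeneratingSet (α := Iio a → Bool)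
  set 𝒮 := MeasurableSpace.countableGeneratingSet (Iio a → Bool) with h𝒮
  have h3 := countable_generateSetAlgebra h1
  have h4 : (generateSetAlgebra 𝒮).Nonempty := ⟨∅, isSetAlgebra_generateSetAlgebra.empty_mem⟩
  obtain ⟨c, hc⟩ := h3.exists_eq_range h4
  have h5 : MeasurableSpace.pi = MeasurableSpace.generateFrom (generateSetAlgebra 𝒮) := by
    rw [generateFrom_generateSetAlgebra_eq, h2]
  refine ⟨c, fun n => ?_, fun μ μ' _ _ h => ?_⟩
  · rw [h5]
    apply MeasurableSpace.measurableSet_generateFrom
    rw [hc]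
    exact mem_range_self n
  · refine ext_of_generate_finite (generateSetAlgebra 𝒮) h5 ?_ ?_ ?_
    · intro s hs t ht _
      exact isSetAlgebra_generateSetAlgebra.inter_mem hs ht
    · intro s hs
      rw [hc] at hs
      obtain ⟨n, rfl⟩ := hs
      exact (ENNReal.toReal_eq_toReal_iff' (measure_ne_top _ _) (measure_ne_top _ _)).1 (h n)
    · rw [measure_univ, measure_univ]

theorem eq_of_map (ν ν' : Measure K) (a₀ : A)
    (h0 : ∀ a, a₀ ≤ a → ν {x | (x : A → Bool) a = true} = 0)
    (h0' : ∀ a, a₀ ≤ a → ν' {x | (x : A → Bool) a = true} = 0)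
    (h : ν.map (qm a₀) = ν'.map (qm a₀)) : ν = ν' := by
  ext s hs
  obtain ⟨B, hB, rfl⟩ := hs
  rw [measure_congr (ae_ex ν a₀ h0 B hB), measure_congr (ae_ex ν' a₀ h0' B hB)]
  have h1 : (ν.map (qm a₀)) (ex a₀ ⁻¹' B) = (ν'.map (qm a₀)) (ex a₀ ⁻¹' B) := by rw [h]
  rw [Measure.map_apply (qm_meas a₀) (ex_meas a₀ hB),
    Measure.map_apply (qm_meas a₀) (ex_meas a₀ hB)] at h1
  exact h1

/-- KH5 -/
theorem sKH5 : S_KH5.{u} := by
  intro A _ K hA hct
  refine ⟨?_, ?_⟩
  · rintro ν hν ⟨a₀, h0⟩
    have := sep ν a₀ (hct a₀) h0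
    have : Fact ((1 : ℝ≥0∞) ≠ ∞) := ⟨ENNReal.one_ne_top⟩
    obtain ⟨D, hDc, hDd⟩ := TopologicalSpace.exists_countable_dense (Lp ℝ 1 ν)
    refine ⟨D, hDd, ?_⟩
    exact (Cardinal.le_aleph0_iff_set_countable.2 hDc).trans_lt Cardinal.aleph0_lt_aleph_one
  · choose c hc hc' using fun a : A => exists_alg a (hct a)
    let S : Set (Measure K) := {ν | IsProbabilityMeasure ν ∧
      ∃ a₀ : A, ∀ a, a₀ ≤ a → ν {x | (x : A → Bool) a = true} = 0}
    let f : S → A × (ℕ → ℝ) := fun ν =>
      (Classical.choose ν.2.2, fun n =>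
        ((ν.1.map (qm (Classical.choose ν.2.2))) (c (Classical.choose ν.2.2) n)).toReal)
    have hf : Function.Injective f := by
      intro ν ν' h
      apply Subtype.ext
      have h1 : Classical.choose ν.2.2 = Classical.choose ν'.2.2 := congrArg Prod.fst h
      have h2 := congrArg Prod.snd h
      have h3 := Classical.choose_spec ν.2.2
      have h4 := Classical.choose_spec ν'.2.2
      simp only [f] at h2
      have : IsProbabilityMeasure ν.1 := ν.2.1
      have : IsProbabilityMeasure ν'.1 := ν'.2.1
      rw [h1] at h2 h3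
      refine eq_of_map ν.1 ν'.1 (Classical.choose ν'.2.2) h3 h4 ?_
      refine hc' _ _ _ (Measure.isProbabilityMeasure_map (qm_meas _).aemeasurable)
        (Measure.isProbabilityMeasure_map (qm_meas _).aemeasurable) fun n => congrFun h2 n
    have h5 := Cardinal.mk_le_of_injective hf
    refine h5.trans ?_
    rw [Cardinal.mk_prod]
    have h6 : Cardinal.mk (ℕ → ℝ) = Cardinal.continuum := by
      rw [Cardinal.mk_arrow]
      simp [Cardinal.mk_real]
    rw [h6]
    simp only [Cardinal.lift_id', Cardinal.lift_continuum]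
    calc Cardinal.mk A * Cardinal.continuum
        ≤ Cardinal.continuum * Cardinal.continuum := by
          gcongr
      _ = Cardinal.continuum := Cardinal.continuum_mul_self

end Pool.Agent.H736.LD
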