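import Pool.Agent.H624.LD.Stm

/-!
# MP_3844f5: PRE, Martin's axiom gives an uncountable centred set (helper736)
-/

set_option autoImplicit false

open Set
open Pool.Agent.W6h79.LD Pool.Agent.H624.LD

namespace Pool.Agent.H736.LD

universe u

theorem exists_rel (A : Type u) (hA : Cardinal.mk A = Cardinal.aleph 1) :
    ∃ r : A → A → Prop, (∀ b, {a | ¬ r b a}.Countable) ∧ ∀ b, {a | r a b}.Countable := by
  obtain ⟨r, wo, hr⟩ := Cardinal.exists_ord_eq A
  have h0 : ∀ b, {a | r a b}.Countable := by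
    intro b
    have h2 : Ordinal.typein r b < Cardinal.ord (Cardinal.aleph 1) := by
      rw [← hA, hr]
      exact Ordinal.typein_lt_type r b
    have h3 : Cardinal.mk {a // r a b} < Cardinal.aleph 1 := by
      rw [← Ordinal.card_typein]
      exact Cardinal.lt_ord.1 h2
    rw [← Cardinal.le_aleph0_iff_set_countable]
    rw [← Cardinal.succ_aleph0, Order.lt_succ_iff] at h3
    exact h3
  refine ⟨r, fun b => ?_, h0⟩
  have h1 : {a | ¬ r b a} ⊆ insert b {a | r a b} := by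
    intro a ha
    rcases trichotomous_of r a b with h | h | h
    · exact Or.inr h
    · exact Or.inl h
    · exact absurd h ha
  exact Countable.mono h1 (Countable.insert b (h0 b))

theorem not_countable_univ (A : Type u) (hA : Cardinal.mk A = Cardinal.aleph 1) :
    ¬ (univ : Set A).Countable := by
  intro h
  have h4 := Cardinal.le_aleph0_iff_set_countable.2 h
  rw [Cardinal.mk_univ, hA] at h4
  exact absurd h4 (not_le.2 Cardinal.aleph0_lt_aleph_one)

/-- the points that can be reached from `q` -/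
def U {A : Type u} (Q : Set (Finset A)) (q : Finset A) : Set A := {a | ∃ r ∈ Q, q ⊆ r ∧ a ∈ r}

theorem exists_p (A : Type u) (hA : Cardinal.mk A = Cardinal.aleph 1) (Q : Set (Finset A))
    (h1 : ∀ a : A, {a} ∈ Q)
    (hccc : ∀ S ⊆ Q, ¬ S.Countable → ∃ F ∈ S, ∃ G ∈ S, F ≠ G ∧ ∃ H ∈ Q, F ⊆ H ∧ G ⊆ H) :
    ∃ p ∈ Q, ∀ q ∈ Q, p ⊆ q → ¬ (U Q q).Countable := by
  by_contra hcon
  push Not at hcon
  -- maximal antichain
  obtain ⟨W, hW⟩ := zorn_subset
    {W : Set (Finset A) | W ⊆ {q | q ∈ Q ∧ (U Q q).Countable} ∧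
      ∀ F ∈ W, ∀ G ∈ W, F ≠ G → ¬ ∃ H ∈ Q, F ⊆ H ∧ G ⊆ H} (by
      intro c hc hch
      refine ⟨⋃₀ c, ⟨?_, ?_⟩, fun s hs => subset_sUnion_of_mem hs⟩
      · exact sUnion_subset fun s hs => (hc hs).1
      · rintro F ⟨s, hs, hF⟩ G ⟨t, ht, hG⟩ hne
        rcases hch.total hs ht with h | h
        · exact (hc ht).2 F (h hF) G hG hne
        · exact (hc hs).2 F hF G (h hG) hne)
  have hWQ := hW.prop.1
  have hWc : W.Countable := by
    by_contra hW'
    obtain ⟨F, hF, G, hG, hne, H, hH, h3⟩ := hccc W (fun w hw => (hWQ hw).1) hW'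
    exact hW.prop.2 F hF G hG hne ⟨H, hH, h3⟩
  have hC : (⋃ w ∈ W, U Q w).Countable := hWc.biUnion fun w hw => (hWQ hw).2
  have hun := not_countable_univ A hA
  obtain ⟨a, ha⟩ : ∃ a, a ∉ ⋃ w ∈ W, U Q w := by
    by_contra h
    push Not at h
    exact hun (hC.mono fun a _ => h a)
  obtain ⟨q, hq, haq, hqc⟩ := hcon {a} (h1 a)
  have haq' : a ∈ q := haq (Finset.mem_singleton_self a)
  have hnW : ∀ w ∈ W, ¬ ∃ H ∈ Q, w ⊆ H ∧ q ⊆ H := by
    rintro w hw ⟨H, hH, h5, h6⟩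
    apply ha
    simp only [mem_iUnion]
    exact ⟨w, hw, H, hH, h5, h6 haq'⟩
  have hqW : q ∉ W := fun h => hnW q h ⟨q, hq, Finset.Subset.refl _, Finset.Subset.refl _⟩
  have h7 : insert q W ⊆ W := by
    apply hW.le_of_ge
    · refine ⟨?_, ?_⟩
      · rintro w (rfl | hw)
        · exact ⟨hq, hqc⟩
        · exact hWQ hw
      · rintro F (rfl | hF) G (rfl | hG) hne
        · exact absurd rfl hne
        · rintro ⟨H, hH, h8, h9⟩
          exact hnW G hG ⟨H, hH, h9, h8⟩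
        · rintro ⟨H, hH, h8, h9⟩
          exact hnW F hF ⟨H, hH, h8, h9⟩
        · exact hW.prop.2 F hF G hG hne
    · exact subset_insert q W
  exact hqW (h7 (mem_insert q W))

theorem pre0 (hMA : MartinAxiom) (A : Type) (hA : Cardinal.mk A = Cardinal.aleph 1)
    (Q : Set (Finset A)) (h1 : ∀ a : A, {a} ∈ Q)
    (hccc : ∀ S ⊆ Q, ¬ S.Countable → ∃ F ∈ S, ∃ G ∈ S, F ≠ G ∧ ∃ H ∈ Q, F ⊆ H ∧ G ⊆ H) :
    ∃ B : Set A, ¬ B.Countable ∧ ∀ F : Finset A, (↑F : Set A) ⊆ B → ∃ H ∈ Q, F ⊆ H := by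
  obtain ⟨p, hp, hpq⟩ := exists_p A hA Q h1 hccc
  obtain ⟨r, hr, hr'⟩ := exists_rel A hA
  let P : Type := ({q : Finset A // q ∈ Q ∧ p ⊆ q})ᵒᵈ
  have hPle : ∀ x y : {q : Finset A // q ∈ Q ∧ p ⊆ q},
      (OrderDual.toDual x : P) ≤ OrderDual.toDual y ↔ y.1 ⊆ x.1 := fun x y => Iff.rfl
  have : Nonempty P := ⟨OrderDual.toDual ⟨p, hp, Finset.Subset.refl _⟩⟩
  let v : P → Finset A := fun x => (OrderDual.ofDual x).1
  have hv : Function.Injective v := fun x y h => Subtype.ext h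
  have hvle : ∀ x y : P, x ≤ y ↔ v y ⊆ v x := fun x y => Iff.rfl
  have hvQ : ∀ x : P, v x ∈ Q := fun x => (OrderDual.ofDual x).2.1
  have hvp : ∀ x : P, p ⊆ v x := fun x => (OrderDual.ofDual x).2.2
  have hmk : ∀ q ∈ Q, p ⊆ q → ∃ x : P, v x = q := fun q hq hpq' =>
    ⟨OrderDual.toDual ⟨q, hq, hpq'⟩, rfl⟩
  have hcc : ∀ S : Set P, (∀ x ∈ S, ∀ y ∈ S, x ≠ y → ¬ ∃ z, z ≤ x ∧ z ≤ y) → S.Countable := by
    intro S hS
    by_contra hSc
    obtain ⟨F, hF, G, hG, hne, H, hH, h3, h4⟩ := hccc (v '' S)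
      (by rintro _ ⟨x, -, rfl⟩; exact hvQ x)
      (fun h => hSc (countable_of_injective_of_countable_image hv.injOn h))
    obtain ⟨x, hx, rfl⟩ := hF
    obtain ⟨y, hy, rfl⟩ := hG
    obtain ⟨z, rfl⟩ := hmk H hH ((hvp x).trans h3)
    exact hS x hx y hy (fun h => hne (by rw [h])) ⟨z, h3, h4⟩
  let D : A → Set P := fun b => {x | ∃ a ∈ v x, r b a}
  obtain ⟨G, hG0, -, hGd, hGD⟩ := hMA P hcc (Set.range D)
    (by rw [← hA]; exact Cardinal.mk_range_le)
    (by
      rintro _ ⟨b, rfl⟩ x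
      have h5 : ¬ (U Q (v x)).Countable := hpq (v x) (hvQ x) (hvp x)
      have h6 : ∃ a ∈ U Q (v x), r b a := by
        by_contra h
        push Not at h
        exact h5 ((hr b).mono fun a ha => h a ha)
      obtain ⟨a, ⟨q, hq, hxq, haq⟩, hba⟩ := h6
      obtain ⟨z, rfl⟩ := hmk q hq ((hvp x).trans hxq)
      exact ⟨z, ⟨a, haq, hba⟩, hxq⟩)
  refine ⟨{a | ∃ x ∈ G, a ∈ v x}, ?_, ?_⟩
  · intro hB
    -- every `b` has some `a ∈ B` with `r b a`
    have h8 : ∀ b, ∃ a ∈ {a | ∃ x ∈ G, a ∈ v x}, r b a := by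
      intro b
      obtain ⟨x, ⟨a, ha, hba⟩, hxG⟩ := hGD (D b) ⟨b, rfl⟩
      exact ⟨a, ⟨x, hxG, ha⟩, hba⟩
    refine not_countable_univ A hA ((hB.biUnion fun a _ => hr' a).mono fun b _ => ?_)
    obtain ⟨a, ha, hba⟩ := h8 b
    simp only [mem_iUnion]
    exact ⟨a, ha, hba⟩
  · intro F hF
    have h9 : ∃ x ∈ G, F ⊆ v x := by
      classical
      induction F using Finset.induction_on with
      | empty =>
        obtain ⟨x, hx⟩ := hG0
        exact ⟨x, hx, Finset.empty_subset _⟩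
      | insert a F _ ih =>
        have hF' : (↑F : Set A) ⊆ {a | ∃ x ∈ G, a ∈ v x} := fun c hc =>
          hF (Finset.mem_coe.2 (Finset.mem_insert_of_mem (Finset.mem_coe.1 hc)))
        obtain ⟨x, hx, hFx⟩ := ih hF'
        obtain ⟨y, hy, hay⟩ := hF (Finset.mem_coe.2 (Finset.mem_insert_self a F))
        obtain ⟨z, hz, hzx, hzy⟩ := hGd x hx y hy
        refine ⟨z, hz, Finset.insert_subset (hzy hay) (hFx.trans hzx)⟩
    obtain ⟨x, -, hx⟩ := h9
    exact ⟨v x, hvQ x, hx⟩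

/-- PRE -/
theorem sPRE : S_PRE.{u} := by
  intro hMA A hA Q _ h1 hccc
  obtain ⟨e⟩ : Nonempty ((Cardinal.aleph.{0} 1).out ≃ A) := by
    rw [← Cardinal.lift_mk_eq'.{0, u}, Cardinal.mk_out, hA, Cardinal.lift_aleph,
      Cardinal.lift_aleph]
    simp
  set A₀ : Type := (Cardinal.aleph.{0} 1).out with hA₀
  let Q₀ : Set (Finset A₀) := {F | F.map e.toEmbedding ∈ Q}
  have hmm : ∀ F : Finset A, (F.map e.symm.toEmbedding).map e.toEmbedding = F := by
    intro F
    ext a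
    simp
  obtain ⟨B, hB, hBF⟩ := pre0 hMA A₀ (Cardinal.mk_out _) Q₀
    (by
      intro a
      change ({a} : Finset A₀).map e.toEmbedding ∈ Q
      rw [Finset.map_singleton]
      exact h1 _)
    (by
      intro S hS hSc
      obtain ⟨F, ⟨F', hF', rfl⟩, G, ⟨G', hG', rfl⟩, hne, H, hH, hFH, hGH⟩ :=
        hccc ((fun F : Finset A₀ => F.map e.toEmbedding) '' S)
          (by rintro _ ⟨F, hF, rfl⟩; exact hS hF)
          (fun h => hSc (countable_of_injective_of_countable_image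
            (Finset.map_injective e.toEmbedding).injOn h))
      refine ⟨F', hF', G', hG', fun h => hne (by rw [h]), H.map e.symm.toEmbedding, ?_, ?_, ?_⟩
      · change (H.map e.symm.toEmbedding).map e.toEmbedding ∈ Q
        rw [hmm]
        exact hH
      · rw [← Finset.map_subset_map (f := e.toEmbedding), hmm]
        exact hFH
      · rw [← Finset.map_subset_map (f := e.toEmbedding), hmm]
        exact hGH)
  refine ⟨e '' B, fun h => hB (countable_of_injective_of_countable_image e.injective.injOn h),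
    fun F hF => ?_⟩
  obtain ⟨H, hH, hFH⟩ := hBF (F.map e.symm.toEmbedding) (by
    intro a ha
    rw [Finset.coe_map] at ha
    obtain ⟨b, hb, rfl⟩ := ha
    obtain ⟨c, hc, rfl⟩ := hF hb
    simpa using hc)
  refine ⟨H.map e.toEmbedding, hH, ?_⟩
  rw [← hmm F]
  exact Finset.map_subset_map.2 hFH

end Pool.Agent.H736.LD
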