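import Pool.Agent.H624.LD.Stm2
import Pool.Agent.H736.LD.KH5
import Pool.Graph.R_pool_sql_team_seeded_9f66d723.W6h79.LD.W8
import Pool.Graph.R_pool_sql_team_seeded_9f66d723.W6h79.LD.W11
import Pool.Graph.R_pool_sql_team_seeded_9f66d723.W6h79.LD.Mh1
import Pool.Graph.R_pool_sql_team_seeded_9f66d723.W6h79.LD.D2

/-!
# MP_3844f5: EX, a measure with a single piece of type aleph_1 and continuum many separable pieces
(helper736)
-/

set_option autoImplicit false

open Set MeasureTheory
open scoped ENNReal symmDiff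
open Pool.Agent.W6h79.LD Pool.Agent.H624.LD
open Pool.Agent.W6h79.LD.PMh1 (Pf dens_pf pf_dens)

namespace Pool.Agent.H736.LD.EXP

universe u

/-! ### general facts -/

theorem not_densLt_aleph0 (X : Type u) [NormedAddCommGroup X] [NormedSpace ℝ X] [Nontrivial X] :
    ¬ DensLt Cardinal.aleph0 X := by
  rintro ⟨D, hD, hDc⟩
  have hfin : D.Finite := Cardinal.lt_aleph0_iff_set_finite.1 hDc
  have h1 : closure D = D := hfin.isClosed.closure_eq
  have h2 : D = univ := by rw [← h1]; exact hD.closure_eq
  have h3 : (univ : Set X).Finite := h2 ▸ hfin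
  have : Infinite X := by
    obtain ⟨x, hx⟩ := exists_ne (0 : X)
    exact Infinite.of_injective (fun r : ℝ => r • x) (smul_left_injective ℝ hx)
  exact Set.infinite_univ h3

theorem nontrivial_L1 {Ω : Type u} [MeasurableSpace Ω] (μ : Measure Ω) (h : 0 < μ univ)
    (h1 : μ univ < ∞) : Nontrivial (Lp ℝ 1 μ) := by
  have hm : μ (univ : Set Ω) ≠ ∞ := h1.ne
  refine ⟨⟨indicatorConstLp 1 MeasurableSet.univ hm (1 : ℝ), 0, ?_⟩⟩
  intro h0
  have h2 := congrArg norm h0
  rw [norm_indicatorConstLp one_ne_zero ENNReal.one_ne_top, norm_zero] at h2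
  have h3 : 0 < μ.real univ := ENNReal.toReal_pos h.ne' hm
  simp [h3.ne'] at h2

theorem not_dens {Ω : Type u} [MeasurableSpace Ω] (μ : Measure Ω) [IsFiniteMeasure μ]
    {ι : Type u} (hι : Cardinal.aleph 1 ≤ Cardinal.mk ι) (B : ι → Set Ω)
    (hB : ∀ i, MeasurableSet (B i)) (δ : ℝ) (hδ : 0 < δ)
    (h : ∀ i j, i ≠ j → δ ≤ μ.real (B i ∆ B j)) : ¬ DensLt (Cardinal.aleph 1) (Lp ℝ 1 μ) := by
  rintro ⟨D, hD1, hD2⟩
  let f : ι → Lp ℝ 1 μ := fun a => indicatorConstLp 1 (hB a) (measure_ne_top μ (B a)) (1 : ℝ)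
  have hsep : ∀ a b, a ≠ b → δ ≤ dist (f a) (f b) := by
    intro a b hab
    have h1 : dist (f a) (f b) = μ.real (B a ∆ B b) := by
      change dist (indicatorConstLp 1 (hB a) _ (1 : ℝ)) (indicatorConstLp 1 (hB b) _ (1 : ℝ)) = _
      rw [dist_indicatorConstLp_eq_norm, norm_indicatorConstLp one_ne_zero ENNReal.one_ne_top]
      simp
    rw [h1]
    exact h a b hab
  have hex : ∀ a, ∃ d ∈ D, dist (f a) d < δ / 2 := fun a =>
    hD1.exists_dist_lt (f a) (by positivity)
  choose g hg1 hg2 using hex
  have hinj : Function.Injective fun a => (⟨g a, hg1 a⟩ : D) := by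
    intro a b hab
    by_contra hne
    have h1 : g a = g b := congrArg Subtype.val hab
    have h2 := hsep a b hne
    have h3 := dist_triangle_right (f a) (f b) (g a)
    have h4 := hg2 a
    have h5 := hg2 b
    rw [← h1] at h5
    linarith
  have h1 := Cardinal.mk_le_of_injective hinj
  exact absurd hD2 (not_lt.2 (hι.trans h1))

/-! ### pieces -/

/-- `(X, ν)` is a piece of `(Ω, μ)` -/
structure Piece {X Ω : Type u} [MeasurableSpace X] [MeasurableSpace Ω] (j : X → Ω)
    (ν : Measure X) (μ : Measure Ω) : Prop where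
  emb : MeasurableEmbedding j
  eq : μ.restrict (range j) = ν.map j

variable {X Ω : Type u} [MeasurableSpace X] [MeasurableSpace Ω] {j : X → Ω}
    {ν : Measure X} {μ : Measure Ω}

theorem Piece.apply (h : Piece j ν μ) {s : Set Ω} (hs : MeasurableSet s) (hr : s ⊆ range j) :
    μ s = ν (j ⁻¹' s) := by
  rw [← Measure.map_apply h.emb.measurable hs, ← h.eq, Measure.restrict_apply hs,
    inter_eq_left.2 hr]

theorem Piece.atomless (h : Piece j ν μ) (hν : ∀ B, ¬ AtomSet ν B) (B : Set Ω)
    (hB : B ⊆ range j) : ¬ AtomSet μ B := by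
  rintro ⟨hBm, hB0, hBa⟩
  refine hν (j ⁻¹' B) ⟨h.emb.measurable hBm, ?_, fun C hC hCm => ?_⟩
  · rw [← h.apply hBm hB]
    exact hB0
  · have h1 : j '' C ⊆ B := image_subset_iff.2 hC
    have h2 : MeasurableSet (j '' C) := h.emb.measurableSet_image.2 hCm
    rcases hBa (j '' C) h1 h2 with h3 | h3
    · left
      rw [h.apply h2 (image_subset_range _ _), preimage_image_eq _ h.emb.injective] at h3
      exact h3
    · right
      rw [h.apply (hBm.diff h2) (diff_subset.trans hB), preimage_diff,
        preimage_image_eq _ h.emb.injective] at h3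
      exact h3

theorem Piece.pf (h : Piece j ν μ) {κ : Cardinal.{u}} (hν : Pf κ ν univ) (F : Set Ω)
    (hF : MeasurableSet F) (hFr : F ⊆ range j) : Pf κ μ F := by
  obtain ⟨D, hc, hi, hD⟩ := hν
  have hr : MeasurableSet (range j) := h.emb.measurableSet_range
  refine ⟨(fun d => Function.extend j d 0) '' D, Cardinal.mk_image_le.trans_lt hc, ?_, ?_⟩
  · rintro _ ⟨d, hd, rfl⟩
    have h1 : (range j).indicator (Function.extend j d 0) = Function.extend j d 0 := by
      rw [indicator_eq_self]
      intro ω hω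
      by_contra hn
      apply hω
      rw [Function.extend_apply' _ _ _ (by simpa using hn)]
      rfl
    change Integrable (Function.extend j d 0) μ
    rw [← h1, integrable_indicator_iff hr]
    unfold IntegrableOn
    rw [h.eq, h.emb.integrable_map_iff]
    have h2 : Function.extend j d 0 ∘ j = d := by
      funext x
      exact h.emb.injective.extend_apply _ _ _
    rw [h2]
    exact hi d hd
  · intro g hg ε hε
    have h3 : Integrable (g ∘ j) ν := by
      rw [← h.emb.integrable_map_iff, ← h.eq]
      exact hg.restrict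
    obtain ⟨d, hd, hdε⟩ := hD _ h3 ε hε
    refine ⟨_, ⟨d, hd, rfl⟩, ?_⟩
    refine lt_of_le_of_lt ?_ hdε
    calc ∫⁻ ω in F, ‖g ω - Function.extend j d 0 ω‖ₑ ∂μ
        ≤ ∫⁻ ω in range j, ‖g ω - Function.extend j d 0 ω‖ₑ ∂μ := lintegral_mono_set hFr
      _ = ∫⁻ x, ‖g (j x) - Function.extend j d 0 (j x)‖ₑ ∂ν := by
          rw [h.eq, h.emb.lintegral_map]
      _ = ∫⁻ x in univ, ‖(g ∘ j) x - d x‖ₑ ∂ν := by
          rw [Measure.restrict_univ]
          congr 1
          funext x
          rw [h.emb.injective.extend_apply]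
          rfl

/-! ### sums -/

theorem measurableSet_sigma {ι : Type u} {Y : ι → Type u} [∀ i, MeasurableSpace (Y i)]
    (s : Set (Σ i, Y i)) : MeasurableSet s ↔ ∀ i, MeasurableSet (Sigma.mk i ⁻¹' s) := by
  change MeasurableSet[⨅ a, (inferInstance : MeasurableSpace (Y a)).map (Sigma.mk a)] s ↔ _
  rw [MeasurableSpace.measurableSet_iInf]
  rfl

theorem meas_mk {ι : Type u} {Y : ι → Type u} [∀ i, MeasurableSpace (Y i)] (i : ι) :
    Measurable (Sigma.mk i : Y i → Σ i, Y i) := fun s hs => (measurableSet_sigma s).1 hs i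

theorem preimage_mk_image_ne {ι : Type u} {Y : ι → Type u} {i k : ι} (h : k ≠ i)
    (s : Set (Y i)) : (Sigma.mk k : Y k → Σ i, Y i) ⁻¹' (Sigma.mk i '' s) = ∅ := by
  rw [eq_empty_iff_forall_notMem]
  rintro x ⟨y, -, hy⟩
  exact h (congrArg Sigma.fst hy).symm

theorem emb_mk {ι : Type u} {Y : ι → Type u} [∀ i, MeasurableSpace (Y i)] (i : ι) :
    MeasurableEmbedding (Sigma.mk i : Y i → Σ i, Y i) := by
  refine ⟨sigma_mk_injective, meas_mk i, fun s hs => ?_⟩
  rw [measurableSet_sigma]
  intro k
  by_cases hk : k = i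
  · subst hk
    rw [preimage_image_eq _ sigma_mk_injective]
    exact hs
  · rw [preimage_mk_image_ne hk]
    exact MeasurableSet.empty

/-- the sum measure -/
noncomputable def sm {ι : Type u} {Y : ι → Type u} [∀ i, MeasurableSpace (Y i)]
    (ν : ∀ i, Measure (Y i)) : Measure (Σ i, Y i) :=
  Measure.sum fun i => (ν i).map (Sigma.mk i)

theorem sm_apply {ι : Type u} {Y : ι → Type u} [∀ i, MeasurableSpace (Y i)]
    (ν : ∀ i, Measure (Y i)) {s : Set (Σ i, Y i)} (hs : MeasurableSet s) :
    sm ν s = ∑' i, ν i (Sigma.mk i ⁻¹' s) := by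
  unfold sm
  rw [Measure.sum_apply _ hs]
  congr 1
  funext i
  exact Measure.map_apply (meas_mk i) hs

theorem sm_piece {ι : Type u} {Y : ι → Type u} [∀ i, MeasurableSpace (Y i)]
    (ν : ∀ i, Measure (Y i)) (i : ι) : Piece (Sigma.mk i) (ν i) (sm ν) := by
  refine ⟨emb_mk i, ?_⟩
  ext s hs
  have hr : MeasurableSet (range (Sigma.mk i : Y i → Σ i, Y i)) := (emb_mk i).measurableSet_range
  rw [Measure.restrict_apply hs, sm_apply ν (hs.inter hr), Measure.map_apply (meas_mk i) hs,
    tsum_eq_single i]
  · congr 1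
    ext x
    simp
  · intro k hk
    have h1 : (Sigma.mk k : Y k → Σ i, Y i) ⁻¹' (s ∩ range (Sigma.mk i)) = ∅ := by
      rw [← image_univ, preimage_inter, preimage_mk_image_ne hk, inter_empty]
    rw [h1, measure_empty]

theorem exists_pos {ι : Type u} {Y : ι → Type u} [∀ i, MeasurableSpace (Y i)]
    (ν : ∀ i, Measure (Y i)) {s : Set (Σ i, Y i)} (hs : MeasurableSet s) (h : 0 < sm ν s) :
    ∃ i, 0 < sm ν (s ∩ range (Sigma.mk i)) := by
  by_contra hcon
  push Not at hcon
  apply h.ne'
  rw [sm_apply ν hs, ENNReal.tsum_eq_zero]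
  intro i
  have h1 := hcon i
  have hr : MeasurableSet (range (Sigma.mk i : Y i → Σ i, Y i)) := (emb_mk i).measurableSet_range
  rw [(sm_piece ν i).apply (hs.inter hr) inter_subset_right] at h1
  have h2 : (Sigma.mk i : Y i → Σ i, Y i) ⁻¹' (s ∩ range (Sigma.mk i)) = Sigma.mk i ⁻¹' s := by
    ext x
    simp
  rw [h2] at h1
  exact le_antisymm h1 zero_le

theorem countable_pos {ι : Type u} {Y : ι → Type u} [∀ i, MeasurableSpace (Y i)]
    (ν : ∀ i, Measure (Y i)) {s : Set (Σ i, Y i)} (hs : MeasurableSet s) (h : sm ν s < ∞) :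
    {i | 0 < sm ν (range (Sigma.mk i) ∩ s)}.Countable := by
  rw [sm_apply ν hs] at h
  refine (Summable.countable_support_ennreal h.ne).mono fun i hi => ?_
  have hr : MeasurableSet (range (Sigma.mk i : Y i → Σ i, Y i)) := (emb_mk i).measurableSet_range
  have hi : 0 < sm ν (range (Sigma.mk i) ∩ s) := hi
  rw [(sm_piece ν i).apply (hr.inter hs) inter_subset_left] at hi
  have h2 : (Sigma.mk i : Y i → Σ i, Y i) ⁻¹' (range (Sigma.mk i) ∩ s) = Sigma.mk i ⁻¹' s := by
    ext x
    simp
  rw [h2] at hi
  exact hi.ne'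

/-! ### coins -/

theorem pf_nat (κ : Cardinal.{0}) (hκ : Cardinal.aleph0 < κ) : Pf κ (coins ℕ) univ := by
  have h1 : DensLt κ (Lp ℝ 1 (coins ℕ)) := PW11.densLt_of_separable hκ (W8.coins_separable ℕ)
  refine dens_pf MeasurableSet.univ ?_
  rw [Measure.restrict_univ]
  exact h1

theorem rs_mp {A : Type u} (I : Set A) : MeasurePreserving (rs I) (coins A) (coins I) := by
  refine ⟨rs_meas I, ?_⟩
  unfold coins
  exact Measure.infinitePi_map_restrict' (fun _ : A => coin)

theorem pf_coins {A : Type u} [LinearOrder A] (hA : Cardinal.mk A = Cardinal.aleph 1)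
    (hct : ∀ a : A, (Iio a).Countable) (κ : Cardinal.{u}) (hκ : Cardinal.aleph 1 < κ) :
    Pf κ (coins A) univ := by
  have h0 : ∀ a : A, Pf (Cardinal.aleph 1) (coins (Iio a)) univ := by
    intro a
    have : Countable (Iio a) := (hct a).to_subtype
    have h1 : DensLt (Cardinal.aleph 1) (Lp ℝ 1 (coins (Iio a))) :=
      PW11.densLt_of_separable Cardinal.aleph0_lt_aleph_one (W8.coins_separable (Iio a))
    refine dens_pf MeasurableSet.univ ?_
    rw [Measure.restrict_univ]
    exact h1
  choose D hD1 hD2 hD3 using h0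
  refine ⟨⋃ a, (fun d => d ∘ rs (Iio a)) '' (D a), ?_, ?_, ?_⟩
  · refine lt_of_le_of_lt (Cardinal.mk_iUnion_le _) (lt_of_le_of_lt ?_ hκ)
    calc Cardinal.mk A * ⨆ a, Cardinal.mk ((fun d => d ∘ rs (Iio a)) '' (D a) : Set _)
        ≤ Cardinal.aleph 1 * Cardinal.aleph0 := by
          rw [hA]
          gcongr
          refine ciSup_le' fun a => ?_
          refine Cardinal.mk_image_le.trans ?_
          have := hD1 a
          rwa [← Cardinal.succ_aleph0, Order.lt_succ_iff] at this
      _ = Cardinal.aleph 1 := Cardinal.mul_aleph0_eq (Cardinal.aleph0_le_aleph 1)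
  · intro f hf
    simp only [mem_iUnion] at hf
    obtain ⟨a, d, hd, rfl⟩ := hf
    exact (rs_mp (Iio a)).integrable_comp_of_integrable (hD2 a d hd)
  · intro g hg ε hε
    obtain ⟨g', hg'm, hgg'⟩ := hg.1
    obtain ⟨I, hI, hdep⟩ := sD2 A g' hg'm.measurable
    obtain ⟨a, ha⟩ : ∃ a : A, ∀ i ∈ I, i < a := by
      obtain ⟨a₀, ha₀⟩ : ∃ a₀ : A, a₀ ∉ ⋃ i ∈ I, Iic i := by
        by_contra hcon
        push Not at hcon
        have h3 : (univ : Set A).Countable := by
          refine (hI.biUnion fun i _ => (?_ : (Iic i).Countable)).mono fun a _ => hcon a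
          rw [← Iio_insert]
          exact (hct i).insert i
        have h4 := Cardinal.le_aleph0_iff_set_countable.2 h3
        rw [Cardinal.mk_univ, hA] at h4
        exact absurd h4 (not_le.2 Cardinal.aleph0_lt_aleph_one)
      refine ⟨a₀, fun i hi => ?_⟩
      by_contra h
      exact ha₀ (mem_biUnion hi (not_lt.1 h))
    have hmp := rs_mp (Iio a)
    have h5 : ∀ x, g' x = g' (ex a (rs (Iio a) x)) := by
      intro x
      refine hdep _ _ fun i hi => ?_
      unfold ex rs
      rw [dif_pos (ha i hi)]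
    have hgm : StronglyMeasurable (fun y => g' (ex a y)) := hg'm.comp_measurable (ex_meas a)
    have h6 : Integrable (fun y => g' (ex a y)) (coins (Iio a)) := by
      rw [← hmp.integrable_comp hgm.aestronglyMeasurable]
      refine hg.congr ?_
      filter_upwards [hgg'] with x hx
      rw [hx, h5 x]
      rfl
    obtain ⟨d, hd, hdε⟩ := hD3 a _ h6 ε hε
    refine ⟨d ∘ rs (Iio a), ?_, ?_⟩
    · simp only [mem_iUnion]
      exact ⟨a, d, hd, rfl⟩
    · refine lt_of_eq_of_lt ?_ hdε
      rw [Measure.restrict_univ, Measure.restrict_univ, ← hmp.map_eq, lintegral_map']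
      · apply lintegral_congr_ae
        filter_upwards [hgg'] with x hx
        rw [hx, h5 x]
        rfl
      · rw [hmp.map_eq]
        exact (hgm.aestronglyMeasurable.sub (hD2 a d hd).1).enorm
      · exact (rs_meas _).aemeasurable

open Classical in
/-- the coins are invariant under a flip -/
theorem flip_preserving {A : Type u} (a : A) : MeasurePreserving (fun (x : A → Bool) (i : A) =>
    if i = a then !(x i) else x i) (coins A) (coins A) := by
  have h1 : ∀ i : A, Measurable (fun b : Bool => if i = a then !b else b) := fun i =>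
    measurable_of_countable _
  refine ⟨?_, ?_⟩
  · exact measurable_pi_lambda _ fun i => (h1 i).comp (measurable_pi_apply i)
  · unfold coins
    have h2 := Measure.infinitePi_map_pi (fun _ : A => coin) h1
    refine h2.trans ?_
    congr 1
    funext i
    by_cases hi : i = a
    · have h3 : (fun b : Bool => if i = a then !b else b) = Bool.not := by
        funext b
        rw [if_pos hi]
      rw [h3]
      refine Measure.ext_of_singleton fun b => ?_
      rw [Measure.map_apply (measurable_of_countable _) (measurableSet_singleton b)]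
      have h4 : Bool.not ⁻¹' {b} = {!b} := by
        ext c
        cases b <;> cases c <;> simp
      rw [h4, coin, Measure.smul_apply, Measure.smul_apply, Measure.count_singleton,
        Measure.count_singleton]
    · have h3 : (fun b : Bool => if i = a then !b else b) = id := by
        funext b
        rw [if_neg hi]
        rfl
      rw [h3, Measure.map_id]

/-- independence -/
theorem half {A : Type u} {G : Set (A → Bool)} (hG : MeasurableSet G) {I : Set A}
    (hd : Dep I G) {a b : A} (ha : a ∉ I) (hab : a ≠ b) :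
    2 * coins A (G ∩ {x | x a ≠ x b}) = coins A G := by
  classical
  obtain ⟨σ, hσd⟩ : ∃ σ : (A → Bool) → (A → Bool),
      σ = fun x i => if i = a then !(x i) else x i := ⟨_, rfl⟩
  have hσ : MeasurePreserving σ (coins A) (coins A) := by
    rw [hσd]
    exact flip_preserving a
  have hN : MeasurableSet {x : A → Bool | x a ≠ x b} := by
    have h1 : Measurable fun x : A → Bool => (x a, x b) :=
      (measurable_pi_apply a).prodMk (measurable_pi_apply b)
    exact h1 (MeasurableSet.of_discrete (s := {p : Bool × Bool | p.1 ≠ p.2}))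
  have h1 : σ ⁻¹' (G ∩ {x | x a ≠ x b}) = G \ {x | x a ≠ x b} := by
    ext x
    have h2 : σ x ∈ G ↔ x ∈ G := by
      refine hd _ _ fun i hi => ?_
      have : i ≠ a := fun h => ha (h ▸ hi)
      simp only [hσd, if_neg this]
    have h3 : σ x a = !(x a) := by simp only [hσd, if_true]
    have h4 : σ x b = x b := by simp only [hσd, if_neg hab.symm]
    change (σ x ∈ G ∧ σ x a ≠ σ x b) ↔ (x ∈ G ∧ ¬ x a ≠ x b)
    rw [h2, h3, h4]
    refine and_congr_right fun _ => ?_
    cases x a <;> cases x b <;> simp
  have h5 := hσ.measure_preimage (hG.inter hN).nullMeasurableSet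
  rw [h1] at h5
  rw [two_mul]
  conv_lhs => rw [← h5]
  rw [add_comm, h5]
  have h6 := measure_inter_add_sdiff G hN (μ := coins A)
  rw [h5] at h6
  exact h6

/-- the lower bound -/
theorem lower {A : Type} (hA : Cardinal.mk A = Cardinal.aleph 1) {Ω : Type} [MeasurableSpace Ω]
    {μ : Measure Ω} {j : (A → Bool) → Ω} (h : Piece j (coins A) μ) (F : Set Ω)
    (hF : MeasurableSet F) (hFr : F ⊆ range j) (hF0 : 0 < μ F) (hF1 : μ F < ∞) :
    ¬ DensLt (Cardinal.aleph 1) (Lp ℝ 1 (μ.restrict F)) := by
  classical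
  set G : Set (A → Bool) := j ⁻¹' F with hG
  have hGm : MeasurableSet G := h.emb.measurable hF
  have hG0 : 0 < coins A G := by
    rw [← h.apply hF hFr]
    exact hF0
  obtain ⟨I, hI, hdep⟩ := sD2 A (G.indicator 1) (measurable_one.indicator hGm)
  have hd : Dep I G := by
    intro x y hxy
    have h1 := hdep x y hxy
    by_cases hx : x ∈ G <;> by_cases hy : y ∈ G <;> simp [hx, hy] at h1 ⊢
  have hιc : Cardinal.aleph 1 ≤ Cardinal.mk (Iᶜ : Set A) := by
    by_contra hcon
    rw [not_le, ← Cardinal.succ_aleph0, Order.lt_succ_iff,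
      Cardinal.le_aleph0_iff_set_countable] at hcon
    have h2 : (univ : Set A).Countable := by
      rw [← union_compl_self I]
      exact hI.union hcon
    have h4 := Cardinal.le_aleph0_iff_set_countable.2 h2
    rw [Cardinal.mk_univ, hA] at h4
    exact absurd h4 (not_le.2 Cardinal.aleph0_lt_aleph_one)
  have : IsFiniteMeasure (μ.restrict F) := ⟨by
    rw [Measure.restrict_apply_univ]
    exact hF1⟩
  have hm : ∀ a : A, MeasurableSet {x : A → Bool | x a = true} := fun a =>
    (measurable_pi_apply a : Measurable fun x : A → Bool => x a) (measurableSet_singleton true)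
  have hBm : ∀ a : A, MeasurableSet (j '' (G ∩ {x | x a = true})) := fun a =>
    h.emb.measurableSet_image.2 (hGm.inter (hm a))
  refine not_dens (μ.restrict F) hιc (fun a : (Iᶜ : Set A) => j '' (G ∩ {x | x a.1 = true}))
    (fun a => hBm a.1) ((coins A).real G / 2) ?_ ?_
  · have : 0 < (coins A).real G := ENNReal.toReal_pos hG0.ne' (measure_ne_top _ _)
    positivity
  · rintro ⟨a, ha⟩ ⟨b, hb⟩ hab
    have hab' : a ≠ b := fun h => hab (Subtype.ext h)
    have h7 := half hGm hd ha hab'
    have h8 : (μ.restrict F) ((j '' (G ∩ {x | x a = true})) ∆ (j '' (G ∩ {x | x b = true}))) =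
        coins A (G ∩ {x | x a ≠ x b}) := by
      rw [← image_symmDiff h.emb.injective, Measure.restrict_apply
        (h.emb.measurableSet_image.2 ((hGm.inter (hm a)).symmDiff (hGm.inter (hm b)))),
        h.apply ((h.emb.measurableSet_image.2
          ((hGm.inter (hm a)).symmDiff (hGm.inter (hm b)))).inter hF)
          (inter_subset_right.trans hFr), preimage_inter,
        preimage_image_eq _ h.emb.injective]
      congr 1
      ext x
      simp only [mem_inter_iff, mem_symmDiff, mem_setOf_eq, ← hG]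
      constructor
      · rintro ⟨h1 | h1, h2⟩
        · refine ⟨h2, fun h3 => h1.2 ⟨h2, ?_⟩⟩
          rw [← h3]
          exact h1.1.2
        · refine ⟨h2, fun h3 => h1.2 ⟨h2, ?_⟩⟩
          rw [h3]
          exact h1.1.2
      · rintro ⟨h1, h2⟩
        refine ⟨?_, h1⟩
        cases hxa : x a <;> cases hxb : x b <;> simp_all
    rw [Measure.real, Measure.real, h8, ← h7, ENNReal.toReal_mul]
    simp

/-! ### the example -/

/-- the index sets of the fibres -/
def XX (A : Type) : Option (ℕ → Bool) → Type := fun i => i.elim A fun _ => ℕ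

/-- the fibres -/
def YY (A : Type) (i : Option (ℕ → Bool)) : Type := XX A i → Bool

instance (A : Type) (i : Option (ℕ → Bool)) : MeasurableSpace (YY A i) :=
  inferInstanceAs (MeasurableSpace (XX A i → Bool))

/-- the space -/
abbrev OO (A : Type) : Type := Σ i : Option (ℕ → Bool), YY A i

/-- the fibre inclusions -/
abbrev jj (A : Type) (i : Option (ℕ → Bool)) : YY A i → OO A := Sigma.mk i

/-- the measures on the fibres -/
noncomputable def nu (A : Type) (i : Option (ℕ → Bool)) : Measure (YY A i) :=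
  coins (XX A i)

/-- EX -/
theorem _root_.Pool.Agent.H736.LD.sEX : S_EX := by
  let A : Type := (Cardinal.aleph.{0} 1).ord.ToType
  have hA : Cardinal.mk A = Cardinal.aleph 1 := Cardinal.mk_ord_toType _
  have hct : ∀ a : A, (Iio a).Countable := by
    intro a
    rw [← Cardinal.le_aleph0_iff_set_countable, ← Order.lt_succ_iff, Cardinal.succ_aleph0]
    have := Cardinal.mk_Iio_lt a (by simp [A])
    rwa [hA] at this
  have hAi : Infinite A := by
    rw [Cardinal.infinite_iff, hA]
    exact Cardinal.aleph0_le_aleph 1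
  let μ : Measure (OO A) := sm (nu A)
  have hP : ∀ i, Piece (jj A i) (nu A i) μ := sm_piece (nu A)
  have hr : ∀ i : Option (ℕ → Bool), MeasurableSet (range (jj A i)) :=
    fun i => (hP i).emb.measurableSet_range
  have hr1 : ∀ i : Option (ℕ → Bool), μ (range (jj A i)) = 1 := by
    intro i
    rw [(hP i).apply (hr i) Subset.rfl, preimage_range]
    change coins (XX A i) univ = 1
    exact measure_univ
  have hat : ∀ i : Option (ℕ → Bool), ∀ B ⊆ range (jj A i),
      ¬ AtomSet μ B := by
    intro i
    refine (hP i).atomless ?_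
    rcases i with _ | y
    · exact W8.coins_atomless A
    · exact W8.coins_atomless ℕ
  have hpf0 : ∀ (κ : Cardinal.{0}), Cardinal.aleph0 < κ → ∀ y, Pf κ (nu A (some y)) univ :=
    fun κ hκ y => pf_nat κ hκ
  have hpf1 : ∀ (κ : Cardinal.{0}), Cardinal.aleph 1 < κ → ∀ i, Pf κ (nu A i) univ := by
    intro κ hκ i
    rcases i with _ | y
    · exact pf_coins hA hct κ hκ
    · exact pf_nat κ (Cardinal.aleph0_lt_aleph_one.trans hκ)
  refine ⟨_, _, μ, ?_, ?_⟩
  · intro κ hκ hκ1
    rcases hκ.eq_or_lt with h | h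
    · subst h
      right
      intro 𝓢 hS
      have hth : ∀ y, Thick Cardinal.aleph0 μ (range (jj A (some y))) := by
        intro y
        refine ⟨hr _, ?_, ?_, hat _, ?_⟩
        · rw [hr1]; exact zero_lt_one
        · rw [hr1]; exact ENNReal.one_lt_top
        · intro F hF hFm hF0
          have hF1 : μ F < ∞ := (measure_mono hF).trans_lt (by rw [hr1]; exact ENNReal.one_lt_top)
          have := nontrivial_L1 (μ.restrict F) (by rw [Measure.restrict_apply_univ]; exact hF0)
            (by rw [Measure.restrict_apply_univ]; exact hF1)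
          exact not_densLt_aleph0 _
      choose S hS1 hS2 using fun y => hS.2 _ (hth y)
      rw [Cardinal.two_power_aleph0]
      have h3 : Cardinal.mk (ℕ → Bool) = Cardinal.continuum := by simp
      by_contra hcon
      rw [not_le] at hcon
      have h4 : (univ : Set (ℕ → Bool)) ⊆ ⋃ T : 𝓢, {y | S y = T.1} := by
        intro y _
        simp only [mem_iUnion]
        exact ⟨⟨S y, hS1 y⟩, rfl⟩
      have h5 : ∀ T : 𝓢, Cardinal.mk {y | S y = T.1} ≤ Cardinal.aleph0 := by
        intro T
        rw [Cardinal.le_aleph0_iff_set_countable]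
        have h6 := countable_pos (nu A) (hS.1 T.1 T.2).1 (hS.1 T.1 T.2).2
        have h7 := h6.preimage (Option.some_injective (ℕ → Bool))
        refine h7.mono fun y hy => ?_
        have h8 := hS2 y
        rw [show S y = T.1 from hy] at h8
        exact h8
      have h9 : Cardinal.continuum ≤ Cardinal.mk 𝓢 * Cardinal.aleph0 := by
        rw [← h3, ← Cardinal.mk_univ]
        refine (Cardinal.mk_le_mk_of_subset h4).trans ((Cardinal.mk_iUnion_le _).trans ?_)
        gcongr
        exact ciSup_le' h5
      have h10 : Cardinal.mk 𝓢 * Cardinal.aleph0 < Cardinal.continuum :=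
        Cardinal.mul_lt_of_lt Cardinal.aleph0_le_continuum hcon Cardinal.aleph0_lt_continuum
      exact absurd h9 (not_le.2 h10)
    · have h1 : Cardinal.aleph 1 < κ := by
        refine lt_of_le_of_ne ?_ hκ1.symm
        rw [← Cardinal.succ_aleph0, Order.succ_le_iff]
        exact h
      left
      rintro E ⟨hE, h0, -, -, hthick⟩
      obtain ⟨i, hi⟩ := exists_pos (nu A) hE h0
      exact hthick _ inter_subset_left (hE.inter (hr i)) hi
        (pf_dens (hE.inter (hr i)) ((hP i).pf (hpf1 κ h1 i) _ (hE.inter (hr i))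
          inter_subset_right))
  · rintro (h | h)
    · refine h (range (jj A none)) ⟨hr _, ?_, ?_, hat _, ?_⟩
      · rw [hr1]; exact zero_lt_one
      · rw [hr1]; exact ENNReal.one_lt_top
      · intro F hF hFm hF0
        have hF1 : μ F < ∞ := (measure_mono hF).trans_lt (by rw [hr1]; exact ENNReal.one_lt_top)
        exact lower hA (hP none) F hFm hF hF0 hF1
    · have h2 := h {range (jj A none)} ⟨?_, ?_⟩
      · rw [Cardinal.mk_singleton] at h2
        have h3 : (1 : Cardinal.{0}) < 2 ^ Cardinal.aleph 1 :=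
          (Cardinal.one_lt_aleph0.trans Cardinal.aleph0_lt_aleph_one).trans (Cardinal.cantor _)
        exact absurd h2 (not_le.2 h3)
      · rintro S hS
        rw [mem_singleton_iff] at hS
        subst hS
        exact ⟨hr _, by rw [hr1]; exact ENNReal.one_lt_top⟩
      · rintro E ⟨hE, h0, -, -, hthick⟩
        refine ⟨_, rfl, ?_⟩
        obtain ⟨i, hi⟩ := exists_pos (nu A) hE h0
        rcases i with _ | y
        · exact hi
        · exact absurd (pf_dens (hE.inter (hr (some y))) ((hP (some y)).pf
            (hpf0 _ Cardinal.aleph0_lt_aleph_one y) _ (hE.inter (hr (some y)))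
            inter_subset_right)) (hthick _ inter_subset_left (hE.inter (hr (some y))) hi)

end Pool.Agent.H736.LD.EXP
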