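import Pool.Agent.H624.LD.Stm

/-!
# MP_3844f5: KH2, the Kunen-Haydon map is measurable (helper736)
-/

set_option autoImplicit false

open Set MeasureTheory
open Pool.Agent.W6h79.LD Pool.Agent.H624.LD

namespace Pool.Agent.H736.LD

universe u

variable {A : Type u}

/-- restriction of coordinates -/
def rs (I : Set A) (x : A → Bool) : I → Bool := fun i => x i

theorem rs_cont (I : Set A) : Continuous (rs I) := by
  unfold rs
  fun_prop

theorem rs_meas (I : Set A) : Measurable (rs I) := by
  unfold rs
  exact measurable_pi_lambda _ fun i => measurable_pi_apply _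

theorem rs_mem {I : Set A} {Z : Set (A → Bool)} (h : Dep I Z) (x : A → Bool) :
    rs I x ∈ rs I '' Z ↔ x ∈ Z := by
  constructor
  · rintro ⟨y, hy, hxy⟩
    exact (h x y fun i hi => (congrFun hxy ⟨i, hi⟩).symm).2 hy
  · intro hx
    exact ⟨x, hx, rfl⟩

theorem preimage_image {I : Set A} {Z : Set (A → Bool)} (h : Dep I Z) :
    rs I ⁻¹' (rs I '' Z) = Z := by
  ext x
  exact rs_mem h x

theorem closed_image {I : Set A} {Z : Set (A → Bool)} (hZ : IsClosed Z) :
    IsClosed (rs I '' Z) :=
  (hZ.isCompact.image (rs_cont I)).isClosed

/-- a closed set which depends on countably many coordinates is measurable -/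
theorem closed_meas {I : Set A} (hI : I.Countable) {Z : Set (A → Bool)} (hZ : IsClosed Z)
    (h : Dep I Z) : MeasurableSet Z := by
  have : Countable I := hI.to_subtype
  rw [← preimage_image h]
  exact rs_meas I (closed_image hZ).measurableSet

variable [LinearOrder A] [WellFoundedLT A]

theorem Phi_eq (H : A → Set (A → Bool)) (x : A → Bool) (a : A) :
    Phi H x a = true ↔ x a = true ∧ tr a (Phi H x) ∈ H a := by
  classical
  have h : Phi H x a = (x a && decide (tr a (Phi H x) ∈ H a)) := by
    unfold Phi
    rw [WellFounded.fix_eq]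
    congr 1
  rw [h, Bool.and_eq_true, decide_eq_true_iff]

theorem tr_apply_lt (x : A → Bool) {a b : A} (h : b < a) : tr a x b = x b := by
  unfold tr
  rw [if_pos h]

theorem tr_mem {Z : Set (A → Bool)} {a : A} (h : Dep (Iio a) Z) (x : A → Bool) :
    tr a x ∈ Z ↔ x ∈ Z := h _ _ fun _ hi => tr_apply_lt x hi

theorem tr_meas_of {B : Type*} [MeasurableSpace B] (f : B → A → Bool) (a : A)
    (h : ∀ b < a, Measurable fun x => f x b) : Measurable fun x => tr a (f x) := by
  rw [measurable_pi_iff]
  intro b
  unfold tr
  by_cases hb : b < a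
  · simp only [if_pos hb]
    exact h b hb
  · simp only [if_neg hb]
    exact measurable_const

theorem Phi_meas_of (H : A → Set (A → Bool)) (a : A)
    (hH : ∀ b ≤ a, MeasurableSet (H b)) : Measurable fun x => Phi H x a := by
  induction a using WellFoundedLT.induction with
  | ind a ih =>
    have h1 : Measurable fun x => tr a (Phi H x) :=
      tr_meas_of (fun x => Phi H x) a fun b hb => ih b hb fun c hc => hH c (hc.trans hb.le)
    apply measurable_to_bool
    have h2 : (fun x => Phi H x a) ⁻¹' {true} =
        {x : A → Bool | x a = true} ∩ (fun x => tr a (Phi H x)) ⁻¹' (H a) := by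
      ext x
      exact Phi_eq H x a
    rw [h2]
    refine MeasurableSet.inter ?_ (h1 (hH a le_rfl))
    exact (measurable_pi_apply a : Measurable fun x : A → Bool => x a)
      (measurableSet_singleton true)

theorem tr_Phi_meas (H : A → Set (A → Bool)) (a : A)
    (hH : ∀ b < a, MeasurableSet (H b)) : Measurable fun x => tr a (Phi H x) :=
  tr_meas_of (fun x => Phi H x) a fun b hb => Phi_meas_of H b fun _ hc => hH _ (hc.trans_lt hb)

/-- KH2 -/
theorem sKH2 : S_KH2.{u} := by
  intro A _ _ H hK
  have hHm : ∀ a, MeasurableSet (H a) := fun a => closed_meas (hK.ctbl a) (hK.closed a) (hK.dep a)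
  refine ⟨?_, ?_, ?_⟩
  · have h : KK H = ⋂ a, ({x : A → Bool | x a = false} ∪ H a) := by
      ext x
      simp only [KK, mem_iInter]
      constructor
      · intro h a
        rcases hx : x a with _ | _
        · exact Or.inl hx
        · exact Or.inr (h a hx)
      · intro h a ha
        rcases h a with h1 | h1
        · rw [show x a = false from h1] at ha
          exact absurd ha (by simp)
        · exact h1
    rw [h]
    refine isClosed_iInter fun a => IsClosed.union ?_ (hK.closed a)
    exact isClosed_eq (continuous_apply a) continuous_const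
  · rw [measurable_pi_iff]
    exact fun a => Phi_meas_of H a fun b _ => hHm b
  · intro x a ha
    exact (tr_mem (hK.dep a) _).1 ((Phi_eq H x a).1 ha).2

end Pool.Agent.H736.LD
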